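import Pool.Agent.Q27.TRC.Chi

/-!
# Traces: general linear groups of algebraic extensions
-/

set_option autoImplicit false

namespace Q27.TRC

open Matrix
open Pool.Agent.Y110.FJ (ClosedE)

/-- restriction of scalars -/
theorem gl_finite {C : ∀ (G : Type) [Group G], Prop} (hC : ClosedE C) {F L : Type} [Field F]
    [Field L] [Algebra F L] [FiniteDimensional F L] (hF : ∀ m : ℕ, C (GL (Fin m) F)) (m : ℕ) :
    C (GL (Fin m) L) := by
  let φ : GL (Fin m) L →* Module.End F (Fin m → L) :=
    { toFun := fun A => (Matrix.toLin' (A : Matrix (Fin m) (Fin m) L)).restrictScalars F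
      map_one' := by
        ext v i
        simp
      map_mul' := fun A B => by
        apply LinearMap.ext
        intro v
        show Matrix.toLin' ((A * B : GL (Fin m) L) : Matrix (Fin m) (Fin m) L) v =
          Matrix.toLin' (A : Matrix (Fin m) (Fin m) L)
            (Matrix.toLin' (B : Matrix (Fin m) (Fin m) L) v)
        rw [Units.val_mul, Matrix.toLin'_mul, LinearMap.comp_apply] }
  refine hC.base.of_injective _ _ φ.toHomUnits ?_ (gl_mem hC hF (Fin m → L))
  intro A B hAB
  have h1 : φ A = φ B := congrArg Units.val hAB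
  apply Units.ext
  apply Matrix.toLin'.injective
  apply LinearMap.ext
  intro v
  exact DFunLike.congr_fun h1 v

/-- **general linear groups over algebraic extensions** -/
theorem gl_alg {C : ∀ (G : Type) [Group G], Prop} (hC : ClosedE C) {F K : Type} [Field F]
    [Field K] [Algebra F K] [Algebra.IsAlgebraic F K] (hF : ∀ m : ℕ, C (GL (Fin m) F)) (m : ℕ) :
    C (GL (Fin m) K) := by
  classical
  refine Q30.FJ.of_fg hC.base _ ?_
  intro s
  let S : Set K := ⋃ A ∈ s, ((Set.range fun p : Fin m × Fin m => (A : Matrix _ _ K) p.1 p.2) ∪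
    (Set.range fun p : Fin m × Fin m => ((A⁻¹ : GL (Fin m) K) : Matrix _ _ K) p.1 p.2))
  have hS : S.Finite := by
    refine Set.Finite.biUnion s.finite_toSet ?_
    intro A _
    exact (Set.finite_range _).union (Set.finite_range _)
  have hSf : Finite S := hS
  let L : IntermediateField F K := IntermediateField.adjoin F S
  have hfd : FiniteDimensional F L := IntermediateField.finiteDimensional_adjoin
    (fun x _ => (Algebra.IsAlgebraic.isAlgebraic x).isIntegral)
  have hL := gl_finite hC (F := F) (L := L) hF m
  let j : GL (Fin m) L →* GL (Fin m) K := Matrix.GeneralLinearGroup.map (algebraMap L K)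
  have hjv : ∀ (A : GL (Fin m) L) (a b : Fin m), (j A : Matrix _ _ K) a b =
      ((A : Matrix _ _ L) a b : K) := fun A a b => rfl
  have hj : Function.Injective j := by
    intro A B hAB
    apply Units.ext
    ext a b
    rw [← hjv, ← hjv, hAB]
  have hle : Subgroup.closure (s : Set (GL (Fin m) K)) ≤ j.range := by
    rw [Subgroup.closure_le]
    intro A hA
    have h1 : ∀ a b, (A : Matrix _ _ K) a b ∈ L := fun a b =>
      IntermediateField.subset_adjoin F S (Set.mem_biUnion hA (Or.inl ⟨(a, b), rfl⟩))
    have h2 : ∀ a b, ((A⁻¹ : GL (Fin m) K) : Matrix _ _ K) a b ∈ L := fun a b =>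
      IntermediateField.subset_adjoin F S (Set.mem_biUnion hA (Or.inr ⟨(a, b), rfl⟩))
    let A1 : Matrix (Fin m) (Fin m) L := fun a b => ⟨_, h1 a b⟩
    let A2 : Matrix (Fin m) (Fin m) L := fun a b => ⟨_, h2 a b⟩
    have hmap : Function.Injective (fun B : Matrix (Fin m) (Fin m) L => B.map (algebraMap L K)) := by
      intro B B' hB
      ext a b
      exact congrFun (congrFun hB a) b
    have e1 : A1.map (algebraMap L K) = A := rfl
    have e2 : A2.map (algebraMap L K) = (A⁻¹ : GL (Fin m) K) := rfl
    have h12 : A1 * A2 = 1 := by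
      apply hmap
      show (A1 * A2).map (algebraMap L K) = (1 : Matrix (Fin m) (Fin m) L).map (algebraMap L K)
      rw [Matrix.map_mul, e1, e2, Matrix.map_one _ (map_zero _) (map_one _), ← Units.val_mul,
        mul_inv_cancel, Units.val_one]
    have h21 : A2 * A1 = 1 := by
      apply hmap
      show (A2 * A1).map (algebraMap L K) = (1 : Matrix (Fin m) (Fin m) L).map (algebraMap L K)
      rw [Matrix.map_mul, e1, e2, Matrix.map_one _ (map_zero _) (map_one _), ← Units.val_mul,
        inv_mul_cancel, Units.val_one]
    exact ⟨⟨A1, A2, h12, h21⟩, Units.ext e1⟩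
  have hr : C j.range := hC.base.of_injective _ _ (MonoidHom.ofInjective hj).symm.toMonoidHom
    (MonoidHom.ofInjective hj).symm.injective hL
  exact hC.base.of_injective _ _ (Subgroup.inclusion hle) (Subgroup.inclusion_injective hle) hr

end Q27.TRC
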