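import Pool.Agent.Y759.TS.Kol
import Pool.Agent.Y800.Lin

/-!
# Traces: the derived series and the radical of the character
-/

set_option autoImplicit false

namespace Q27.TRC

open Matrix Pointwise
open scoped commutatorElement

variable {M : Type} [Group M] {K : Type} [Field K] {n : ℕ}

/-- the elements `u` with `χ (z u) = χ z` for all `z` -/
def UU (ρ : M →* GL (Fin n) K) : Subgroup M where
  carrier := {u | ∀ z, ((ρ (z * u) : GL (Fin n) K) : Matrix (Fin n) (Fin n) K).trace =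
    ((ρ z : GL (Fin n) K) : Matrix (Fin n) (Fin n) K).trace}
  one_mem' := fun z => by rw [mul_one]
  mul_mem' := fun {a b} ha hb z => by rw [← mul_assoc, hb, ha]
  inv_mem' := fun {a} ha z => by
    have h := ha (z * a⁻¹)
    rw [inv_mul_cancel_right] at h
    exact h.symm

theorem UU_nil (ρ : M →* GL (Fin n) K) (hn : ∀ m : ℕ, 1 ≤ m → m ≤ n → (m : K) ≠ 0) {u : M}
    (hu : u ∈ UU ρ) : IsNilpotent ((ρ u : Matrix (Fin n) (Fin n) K) - 1) := by
  apply Pool.Agent.Y800.Rad_nil ρ hn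
  refine ⟨sub_mem (Pool.Agent.Y800.mem_Sp ρ u) (Pool.Agent.Y800.one_mem_Sp ρ), ?_⟩
  intro a ha
  unfold Pool.Agent.Y800.Sp at ha
  induction ha using Submodule.span_induction with
  | mem x hx =>
    obtain ⟨z, rfl⟩ := hx
    have h := hu z
    rw [map_mul, Units.val_mul] at h
    rw [mul_sub, mul_one, Matrix.trace_sub, h, sub_self]
  | zero => rw [zero_mul, Matrix.trace_zero]
  | add y z _ _ hy hz => rw [add_mul, Matrix.trace_add, hy, hz, add_zero]
  | smul c y _ hy => rw [smul_mul_assoc, Matrix.trace_smul, hy, smul_zero]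

/-- the span of the differences `ρ u - 1` -/
def AA (ρ : M →* GL (Fin n) K) : Submodule K (Matrix (Fin n) (Fin n) K) :=
  Submodule.span K (Set.range fun u : UU ρ => (ρ u : Matrix (Fin n) (Fin n) K) - 1)

theorem mem_AA (ρ : M →* GL (Fin n) K) {u : M} (hu : u ∈ UU ρ) :
    (ρ u : Matrix (Fin n) (Fin n) K) - 1 ∈ AA ρ := Submodule.subset_span ⟨⟨u, hu⟩, rfl⟩

theorem AA_pow (ρ : M →* GL (Fin n) K) (hn : ∀ m : ℕ, 1 ≤ m → m ≤ n → (m : K) ≠ 0) :
    AA ρ ^ n = ⊥ := by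
  rw [AA, Submodule.span_pow, Submodule.span_eq_bot]
  intro x hx
  obtain ⟨f, rfl⟩ := Set.mem_pow.1 hx
  have h1 : ∀ i, ∃ u : UU ρ, (ρ u : Matrix (Fin n) (Fin n) K) - 1 = (f i : Matrix _ _ K) :=
    fun i => (f i).2
  choose g hg using h1
  have h2 := Pool.Agent.Y759.TS.t_KOL K (UU ρ) n (ρ.comp (UU ρ).subtype)
    (fun u => UU_nil ρ hn u.2) g
  rw [← h2]
  congr 1
  apply congrArg
  funext i
  exact (hg i).symm

theorem AA_mul (ρ : M →* GL (Fin n) K) : AA ρ * AA ρ ≤ AA ρ := by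
  unfold AA
  rw [Submodule.span_mul_span, Submodule.span_le]
  rintro _ ⟨_, ⟨u, rfl⟩, _, ⟨v, rfl⟩, rfl⟩
  have h : ((ρ u : Matrix (Fin n) (Fin n) K) - 1) * ((ρ v : Matrix (Fin n) (Fin n) K) - 1) =
      ((ρ ((u * v : UU ρ) : M) : Matrix (Fin n) (Fin n) K) - 1) -
        ((ρ u : Matrix (Fin n) (Fin n) K) - 1) - ((ρ v : Matrix (Fin n) (Fin n) K) - 1) := by
    rw [Subgroup.coe_mul, map_mul, Units.val_mul]
    noncomm_ring
  show ((ρ u : Matrix (Fin n) (Fin n) K) - 1) * ((ρ v : Matrix (Fin n) (Fin n) K) - 1) ∈ _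
  rw [h]
  exact sub_mem (sub_mem (Submodule.subset_span ⟨_, rfl⟩) (Submodule.subset_span ⟨_, rfl⟩))
    (Submodule.subset_span ⟨_, rfl⟩)

theorem AA_succ (ρ : M →* GL (Fin n) K) (j : ℕ) : AA ρ ^ (j + 2) ≤ AA ρ ^ (j + 1) := by
  have h : AA ρ ^ (j + 2) = AA ρ ^ j * (AA ρ * AA ρ) := by
    rw [pow_add, pow_two]
  rw [h, pow_succ]
  exact mul_le_mul' le_rfl (AA_mul ρ)

/-- the filtration -/
def HH (ρ : M →* GL (Fin n) K) (j : ℕ) : Subgroup M where
  carrier := {u | u ∈ UU ρ ∧ (ρ u : Matrix (Fin n) (Fin n) K) - 1 ∈ AA ρ ^ (j + 1)}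
  one_mem' := ⟨one_mem _, by rw [map_one, Units.val_one, sub_self]; exact zero_mem _⟩
  mul_mem' := fun {a b} ha hb => ⟨mul_mem ha.1 hb.1, by
    have h : (ρ (a * b) : Matrix (Fin n) (Fin n) K) - 1 =
        ((ρ a : Matrix (Fin n) (Fin n) K) - 1) * ((ρ b : Matrix (Fin n) (Fin n) K) - 1) +
        ((ρ a : Matrix (Fin n) (Fin n) K) - 1) + ((ρ b : Matrix (Fin n) (Fin n) K) - 1) := by
      rw [map_mul, Units.val_mul]
      noncomm_ring
    rw [h]
    refine add_mem (add_mem ?_ ha.2) hb.2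
    apply AA_succ
    rw [pow_succ (AA ρ) (j + 1)]
    exact Submodule.mul_mem_mul ha.2 (mem_AA ρ hb.1)⟩
  inv_mem' := fun {a} ha => ⟨inv_mem ha.1, by
    have h1 : (ρ a⁻¹ : Matrix (Fin n) (Fin n) K) * (ρ a : Matrix (Fin n) (Fin n) K) = 1 := by
      rw [← Units.val_mul, ← map_mul, inv_mul_cancel, map_one, Units.val_one]
    have h : (ρ a⁻¹ : Matrix (Fin n) (Fin n) K) - 1 =
        -((ρ a : Matrix (Fin n) (Fin n) K) - 1) -
          ((ρ a⁻¹ : Matrix (Fin n) (Fin n) K) - 1) * ((ρ a : Matrix (Fin n) (Fin n) K) - 1) := by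
      have h2 : ((ρ a⁻¹ : Matrix (Fin n) (Fin n) K) - 1) * ((ρ a : Matrix (Fin n) (Fin n) K) - 1) =
          (ρ a⁻¹ : Matrix (Fin n) (Fin n) K) * (ρ a : Matrix (Fin n) (Fin n) K) -
          (ρ a⁻¹ : Matrix (Fin n) (Fin n) K) - (ρ a : Matrix (Fin n) (Fin n) K) + 1 := by
        noncomm_ring
      rw [h2, h1]
      abel
    rw [h]
    refine sub_mem (neg_mem ha.2) ?_
    apply AA_succ
    rw [pow_succ' (AA ρ) (j + 1)]
    exact Submodule.mul_mem_mul (mem_AA ρ (inv_mem ha.1)) ha.2⟩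

theorem HH_comm (ρ : M →* GL (Fin n) K) (j : ℕ) {g h : M} (hg : g ∈ HH ρ j) (hh : h ∈ HH ρ j) :
    ⁅g, h⁆ ∈ HH ρ (j + 1) := by
  have hU : ⁅g, h⁆ ∈ UU ρ := by
    rw [commutatorElement_def]
    exact mul_mem (mul_mem (mul_mem hg.1 hh.1) (inv_mem hg.1)) (inv_mem hh.1)
  refine ⟨hU, ?_⟩
  set a := (ρ g : Matrix (Fin n) (Fin n) K) - 1 with ha
  set b := (ρ h : Matrix (Fin n) (Fin n) K) - 1 with hb
  set c := (ρ (h * g)⁻¹ : Matrix (Fin n) (Fin n) K) - 1 with hc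
  have hcm : c ∈ AA ρ := mem_AA ρ (inv_mem (mul_mem hh.1 hg.1))
  have h0 : (ρ (h * g) : Matrix (Fin n) (Fin n) K) * (ρ (h * g)⁻¹ : Matrix (Fin n) (Fin n) K) = 1 := by
    rw [← Units.val_mul, ← map_mul, mul_inv_cancel, map_one, Units.val_one]
  have h1 : (ρ ⁅g, h⁆ : Matrix (Fin n) (Fin n) K) - 1 = (a * b - b * a) + (a * b - b * a) * c := by
    have h2 : ⁅g, h⁆ = g * h * (h * g)⁻¹ := by
      rw [commutatorElement_def]; group
    have h3 : (ρ ⁅g, h⁆ : Matrix (Fin n) (Fin n) K) =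
        (ρ g : Matrix (Fin n) (Fin n) K) * (ρ h : Matrix (Fin n) (Fin n) K) *
          (ρ (h * g)⁻¹ : Matrix (Fin n) (Fin n) K) := by
      rw [h2, map_mul, map_mul, Units.val_mul, Units.val_mul]
    have h4 : a * b - b * a = (ρ g : Matrix (Fin n) (Fin n) K) * (ρ h : Matrix (Fin n) (Fin n) K) -
        (ρ (h * g) : Matrix (Fin n) (Fin n) K) := by
      rw [map_mul, Units.val_mul, ha, hb]
      noncomm_ring
    have h5 : (a * b - b * a) + (a * b - b * a) * c =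
        (a * b - b * a) * (ρ (h * g)⁻¹ : Matrix (Fin n) (Fin n) K) := by
      rw [hc]; noncomm_ring
    rw [h5, h4, sub_mul, h0, h3]
  rw [h1]
  have h2 : a * b - b * a ∈ AA ρ ^ (j + 2) := by
    refine sub_mem ?_ ?_
    · rw [pow_succ]
      exact Submodule.mul_mem_mul hg.2 (mem_AA ρ hh.1)
    · rw [pow_succ]
      exact Submodule.mul_mem_mul hh.2 (mem_AA ρ hg.1)
  refine add_mem h2 ?_
  apply AA_succ
  rw [pow_succ (AA ρ) (j + 2)]
  exact Submodule.mul_mem_mul h2 hcm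

/-- If the commutators of elements of a group are in the radical of the character, the derived
series reaches the kernel. -/
theorem derived_ker (ρ : M →* GL (Fin n) K) (hn : ∀ m : ℕ, 1 ≤ m → m ≤ n → (m : K) ≠ 0)
    {L : Type} [Group L] (ι : L →* M) (hL : ∀ k l : L, ι ⁅k, l⁆ ∈ UU ρ) :
    ∀ x ∈ derivedSeries L n, ρ (ι x) = 1 := by
  rcases Nat.eq_zero_or_pos n with h0 | h0
  · subst h0
    intro x _
    apply Units.ext
    exact Subsingleton.elim _ _
  · have h1 : ∀ j : ℕ, derivedSeries L (j + 1) ≤ (HH ρ j).comap ι := by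
      intro j
      induction j with
      | zero =>
        rw [derivedSeries_succ]
        refine Subgroup.commutator_le.2 ?_
        intro k _ l _
        refine ⟨hL k l, ?_⟩
        rw [zero_add, pow_one]
        exact mem_AA ρ (hL k l)
      | succ j ih =>
        rw [derivedSeries_succ]
        refine Subgroup.commutator_le.2 ?_
        intro k hk l hl
        show ι ⁅k, l⁆ ∈ HH ρ (j + 1)
        rw [map_commutatorElement]
        exact HH_comm ρ j (ih hk) (ih hl)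
    obtain ⟨m, rfl⟩ := Nat.exists_eq_succ_of_ne_zero h0.ne'
    intro x hx
    have h2 := (h1 m hx).2
    have h3 : (ρ (ι x) : Matrix (Fin (m + 1)) (Fin (m + 1)) K) - 1 ∈
        (⊥ : Submodule K (Matrix (Fin (m + 1)) (Fin (m + 1)) K)) := by
      rw [← AA_pow ρ hn]
      exact h2
    apply Units.ext
    exact sub_eq_zero.1 ((Submodule.mem_bot K).1 h3)

end Q27.TRC
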