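import Pool.Agent.Q27.TRC.Kol
import Pool.Agent.Q181.MCL.Ext

/-!
# Traces: the space of translates of a character
-/

set_option autoImplicit false

namespace Q27.TRC

open Matrix
open scoped commutatorElement
open Pool.Agent.Y110.FJ (ClosedE)

variable {M : Type} [Group M] {F K : Type} [Field F] [Field K] [Algebra F K] {n : ℕ}

/-- right translate of a function -/
def fx (χ : M → F) (x : M) : M → F := fun y => χ (y * x)

/-- the space of translates -/
def WW (χ : M → F) : Submodule F (M → F) := Submodule.span F (Set.range (fx χ))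

theorem fx_mem (χ : M → F) (x : M) : fx χ x ∈ WW χ := Submodule.subset_span ⟨x, rfl⟩

theorem WW_rep (ρ : M →* GL (Fin n) K) (χ : M → F)
    (hχ : ∀ x, algebraMap F K (χ x) = (ρ x : Matrix (Fin n) (Fin n) K).trace) {f : M → F}
    (hf : f ∈ WW χ) : ∃ a : Matrix (Fin n) (Fin n) K,
      ∀ y, algebraMap F K (f y) = ((ρ y : Matrix (Fin n) (Fin n) K) * a).trace := by
  unfold WW at hf
  induction hf using Submodule.span_induction with
  | mem f hf =>
    obtain ⟨x, rfl⟩ := hf
    exact ⟨ρ x, fun y => by rw [← Units.val_mul, ← map_mul, ← hχ]; rfl⟩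
  | zero => exact ⟨0, fun y => by rw [mul_zero, Matrix.trace_zero, Pi.zero_apply, map_zero]⟩
  | add f g _ _ hf hg =>
    obtain ⟨a, ha⟩ := hf
    obtain ⟨b, hb⟩ := hg
    exact ⟨a + b, fun y => by rw [mul_add, Matrix.trace_add, Pi.add_apply, map_add, ha, hb]⟩
  | smul c f _ hf =>
    obtain ⟨a, ha⟩ := hf
    exact ⟨algebraMap F K c • a, fun y => by
      rw [mul_smul_comm, Matrix.trace_smul, Pi.smul_apply, smul_eq_mul, map_mul, ha, smul_eq_mul]⟩

theorem WW_fin (ρ : M →* GL (Fin n) K) (χ : M → F)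
    (hχ : ∀ x, algebraMap F K (χ x) = (ρ x : Matrix (Fin n) (Fin n) K).trace) :
    FiniteDimensional F (WW χ) := by
  have h1 : (Submodule.span K (Set.range fun g => (ρ g : Matrix (Fin n) (Fin n) K))).FG :=
    IsNoetherian.noetherian _
  obtain ⟨S, hS, hS2⟩ := (Submodule.fg_span_iff_fg_span_finset_subset _).1 h1
  have h2 : ∀ s : S, ∃ m : M, (ρ m : Matrix (Fin n) (Fin n) K) = s := fun s => hS s.2
  choose m hm using h2
  let r : (M → F) →ₗ[F] (S → F) :=
    { toFun := fun f s => f (m s)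
      map_add' := fun f g => rfl
      map_smul' := fun c f => rfl }
  refine FiniteDimensional.of_injective (r.comp (WW χ).subtype) ?_
  rw [← LinearMap.ker_eq_bot, LinearMap.ker_eq_bot']
  rintro ⟨f, hf⟩ h3
  obtain ⟨a, ha⟩ := WW_rep ρ χ hχ hf
  apply Subtype.ext
  funext y
  apply (algebraMap F K).injective
  show algebraMap F K (f y) = algebraMap F K 0
  rw [ha, map_zero]
  have h4 : ∀ b ∈ Submodule.span K (S : Set (Matrix (Fin n) (Fin n) K)), (b * a).trace = 0 := by
    intro b hb
    induction hb using Submodule.span_induction with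
    | mem b hb =>
      have h5 := congrFun h3 ⟨b, hb⟩
      have h6 : f (m ⟨b, hb⟩) = 0 := h5
      rw [← map_zero (algebraMap F K), ← h6, ha, hm]
    | zero => rw [zero_mul, Matrix.trace_zero]
    | add y z _ _ hy hz => rw [add_mul, Matrix.trace_add, hy, hz, add_zero]
    | smul c y _ hy => rw [smul_mul_assoc, Matrix.trace_smul, hy, smul_zero]
  apply h4
  rw [← hS2]
  exact Submodule.subset_span ⟨y, rfl⟩

variable {V : Type} [Group V]

omit [Field F] in
theorem fx_act (χ : M → F) (α : V →* MulAut M) (hα : ∀ v x, χ (α v x) = χ x) (v : V) (x : M) :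
    (fun y => fx χ x (α v⁻¹ y)) = fx χ (α v x) := by
  funext y
  show χ (α v⁻¹ y * x) = χ (y * α v x)
  rw [← hα v (α v⁻¹ y * x), map_mul]
  congr 2
  rw [← MulAut.mul_apply, ← map_mul, mul_inv_cancel, map_one]
  rfl

/-- the action on the space of translates -/
def LL (χ : M → F) (α : V →* MulAut M) (hα : ∀ v x, χ (α v x) = χ x) :
    V →* Module.End F (WW χ) where
  toFun v := (LinearMap.funLeft F F (α v⁻¹)).restrict (p := WW χ) (q := WW χ) (by
    intro f hf
    unfold WW at hf
    induction hf using Submodule.span_induction with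
    | mem f hf =>
      obtain ⟨x, rfl⟩ := hf
      have h := fx_act χ α hα v x
      have h1 : LinearMap.funLeft F F (α v⁻¹) (fx χ x) = fx χ (α v x) := h
      rw [h1]
      exact fx_mem χ _
    | zero => rw [map_zero]; exact zero_mem _
    | add y z _ _ hy hz => rw [map_add]; exact add_mem hy hz
    | smul c y _ hy => rw [map_smul]; exact Submodule.smul_mem _ _ hy)
  map_one' := by
    ext f y
    show f.1 (α 1⁻¹ y) = f.1 y
    rw [inv_one, map_one]
    rfl
  map_mul' v w := by
    ext f y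
    show f.1 (α (v * w)⁻¹ y) = f.1 (α w⁻¹ (α v⁻¹ y))
    rw [_root_.mul_inv_rev, map_mul]
    rfl

theorem LL_one (χ : M → F) (α : V →* MulAut M) (hα : ∀ v x, χ (α v x) = χ x) (v : V)
    (h : LL χ α hα v = 1) (x y : M) : χ (y * α v x) = χ (y * x) := by
  have h1 := congrArg (fun φ : Module.End F (WW χ) => (φ ⟨fx χ x, fx_mem χ x⟩ : M → F) y) h
  have h2 := congrFun (fx_act χ α hα v x) y
  have h3 : fx χ x (α v⁻¹ y) = fx χ x y := h1
  have h4 : fx χ x (α v⁻¹ y) = fx χ (α v x) y := h2
  rw [h3] at h4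
  exact h4.symm

/-- the general linear group of a finite dimensional space is in the class -/
theorem gl_mem {C : ∀ (G : Type) [Group G], Prop} (hC : ClosedE C)
    (hF : ∀ m : ℕ, C (GL (Fin m) F)) (W : Type) [AddCommGroup W] [Module F W]
    [FiniteDimensional F W] : C (Module.End F W)ˣ := by
  let b := Module.finBasis F W
  let e : (Module.End F W)ˣ ≃* GL (Fin (Module.finrank F W)) F :=
    Units.mapEquiv (LinearMap.toMatrixAlgEquiv b).toMulEquiv
  exact hC.base.of_injective _ _ e.toMonoidHom e.injective (hF _)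

/-- **groups acting on a linear group and preserving the character** -/
theorem chi_main {C : ∀ (G : Type) [Group G], Prop} (hC : ClosedE C)
    (hsol : ∀ (G : Type) [Group G], Group.IsSolvable G → C G)
    (hF : ∀ m : ℕ, C (GL (Fin m) F)) (M : Subgroup V) [M.Normal] (hV : C (V ⧸ M))
    (hn : ∀ m : ℕ, 1 ≤ m → m ≤ n → (m : K) ≠ 0) (ρ : M →* GL (Fin n) K) (χ : M → F)
    (hχ : ∀ x, algebraMap F K (χ x) = (ρ x : Matrix (Fin n) (Fin n) K).trace)
    (hinv : ∀ (v : V) (x : M), χ (MulAut.conjNormal v x) = χ x) :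
    ∃ (P : Type) (_ : Group P) (π : V →* P), C P ∧ ∀ x : M, π x = 1 → ρ x = 1 := by
  have hfd := WW_fin ρ χ hχ
  let L₀ : V →* Module.End F (WW χ) := LL χ MulAut.conjNormal hinv
  let Ψ : V →* (Module.End F (WW χ))ˣ × (V ⧸ M) := L₀.toHomUnits.prod (QuotientGroup.mk' M)
  have hQ : C ((Module.End F (WW χ))ˣ × (V ⧸ M)) := hC.base.prod _ _ (gl_mem hC hF _) hV
  have hle : Ψ.ker ≤ M := by
    intro x hx
    have h1 : Ψ x = 1 := hx
    have h2 : QuotientGroup.mk' M x = 1 := congrArg Prod.snd h1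
    exact (QuotientGroup.eq_one_iff _).1 h2
  have hconj : ∀ k : Ψ.ker, ∀ x y : M, χ (y * MulAut.conjNormal (k : V) x) = χ (y * x) := by
    intro k x y
    refine LL_one χ MulAut.conjNormal hinv (k : V) ?_ x y
    have h1 : Ψ k = 1 := k.2
    have h2 : L₀.toHomUnits (k : V) = 1 := congrArg Prod.fst h1
    have h3 := congrArg Units.val h2
    exact h3
  let ι : Ψ.ker →* M := Subgroup.inclusion hle
  have hcyc : ∀ a b : M, χ (a * b) = χ (b * a) := by
    intro a b
    have h1 := hinv (b : V) (a * b)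
    rw [← h1]
    congr 1
    apply Subtype.ext
    rw [MulAut.conjNormal_apply]
    push_cast
    group
  have hcomm : ∀ k l : Ψ.ker, ι ⁅k, l⁆ ∈ UU ρ := by
    intro k l z
    rw [← hχ, ← hχ]
    congr 1
    have h1 : ι ⁅k, l⁆ = MulAut.conjNormal (k : V) (ι l) * (ι l)⁻¹ := by
      rw [map_commutatorElement, commutatorElement_def]
      apply Subtype.ext
      rfl
    rw [h1, ← mul_assoc, hcyc, ← mul_assoc, hconj, mul_assoc, hcyc, mul_assoc, mul_inv_cancel,
      mul_one]
  have hder := derived_ker ρ hn ι hcomm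
  let T : Subgroup V := (derivedSeries Ψ.ker n).map Ψ.ker.subtype
  have hT : T.Normal := ConjAct.normal_of_characteristic_of_normal
  have hTk : T ≤ Ψ.ker := by
    rintro _ ⟨x, _, rfl⟩
    exact x.2
  refine ⟨V ⧸ T, inferInstance, QuotientGroup.mk' T, ?_, ?_⟩
  · let Φ : V ⧸ T →* (Module.End F (WW χ))ˣ × (V ⧸ M) := QuotientGroup.lift T Ψ hTk
    refine Q181.MCL.ext_sol hC hsol Φ ?_ hQ
    let q : Ψ.ker →* Φ.ker := MonoidHom.mk' (fun k => ⟨QuotientGroup.mk' T k, by
      show Φ (QuotientGroup.mk' T (k : V)) = 1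
      exact k.2⟩) (fun k l => rfl)
    have hq : Function.Surjective q := by
      rintro ⟨x, hx⟩
      obtain ⟨v, rfl⟩ := QuotientGroup.mk'_surjective T x
      exact ⟨⟨v, hx⟩, rfl⟩
    refine (Group.isSolvable_def _).2 ⟨n, ?_⟩
    rw [← map_derivedSeries_eq hq n, eq_bot_iff]
    rintro _ ⟨x, hx, rfl⟩
    rw [Subgroup.mem_bot]
    apply Subtype.ext
    exact (QuotientGroup.eq_one_iff _).2 ⟨x, hx, rfl⟩
  · intro x hx
    obtain ⟨y, hy, hxy⟩ := (QuotientGroup.eq_one_iff _).1 hx
    have h1 : ι y = x := Subtype.ext hxy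
    rw [← h1]
    exact hder y hy

end Q27.TRC
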