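import Mathlib

/-!
# Endomorphisms of algebraically closed fields which move a transcendental element
-/

set_option autoImplicit false

namespace Q27.TRC

theorem ext_hom {R S M : Type} [CommRing R] [Field S] [Algebra R S] [FaithfulSMul R S]
    [Algebra.IsAlgebraic R S] [Field M] [IsAlgClosed M] (j : R →+* M)
    (hj : Function.Injective j) : ∃ σ : S →+* M, ∀ r, σ (algebraMap R S r) = j r := by
  let := j.toAlgebra
  have hd : IsDomain R := (FaithfulSMul.algebraMap_injective R S).isDomain (algebraMap R S)
  have h1 : Module.IsTorsionFree R M :=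
    Module.isTorsionFree_iff_algebraMap_injective.2 hj
  let σ : S →ₐ[R] M := IsAlgClosed.lift
  exact ⟨σ.toRingHom, fun r => σ.commutes r⟩

theorem move {F K : Type} [Field F] [Field K] [IsAlgClosed K] [Algebra F K] {t : K}
    (ht : Transcendental F t) (c : F) : ∃ σ : K →+* K, σ t = t + algebraMap F K c := by
  classical
  have h1 : AlgebraicIndepOn F id ({t} : Set K) :=
    (algebraicIndependent_singleton_iff (⟨t, rfl⟩ : ({t} : Set K))).2 ht
  obtain ⟨s, hts, hs⟩ := exists_isTranscendenceBasis_superset h1
  have htm : t ∈ s := hts rfl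
  let v : s → K := Subtype.val
  have hv : IsTranscendenceBasis F v := hs
  have halg := hv.isAlgebraic
  let sh : F → (MvPolynomial s F →ₐ[F] MvPolynomial s F) := fun c =>
    MvPolynomial.aeval (fun i => if i = ⟨t, htm⟩ then MvPolynomial.X i + MvPolynomial.C c
      else MvPolynomial.X i)
  have hsh : ∀ c p, sh (-c) (sh c p) = p := by
    intro c p
    have h2 : (sh (-c)).comp (sh c) = AlgHom.id F _ := by
      apply MvPolynomial.algHom_ext
      intro i
      show sh (-c) (MvPolynomial.aeval _ (MvPolynomial.X i)) = MvPolynomial.X i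
      rw [MvPolynomial.aeval_X]
      by_cases hi : i = ⟨t, htm⟩
      · rw [if_pos hi, map_add]
        show MvPolynomial.aeval _ (MvPolynomial.X i) + sh (-c) (MvPolynomial.C c) = _
        rw [MvPolynomial.aeval_X, if_pos hi, ← MvPolynomial.algebraMap_eq, AlgHom.commutes,
          map_neg]
        ring
      · rw [if_neg hi]
        show MvPolynomial.aeval _ (MvPolynomial.X i) = _
        rw [MvPolynomial.aeval_X, if_neg hi]
    exact DFunLike.congr_fun h2 p
  have hinj : Function.Injective (sh c) := fun p q hpq => by rw [← hsh c p, hpq, hsh c q]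
  let j : Algebra.adjoin F (Set.range v) →+* K :=
    ((MvPolynomial.aeval (R := F) v).comp (sh c)).toRingHom.comp
      hv.1.aevalEquiv.symm.toRingEquiv.toRingHom
  have hj : Function.Injective j := by
    have h3 : Function.Injective (MvPolynomial.aeval (R := F) v) :=
      (algebraicIndependent_iff_injective_aeval).1 hv.1
    intro x y hxy
    exact hv.1.aevalEquiv.symm.injective (hinj (h3 hxy))
  obtain ⟨σ, hσ⟩ := ext_hom (S := K) j hj
  refine ⟨σ, ?_⟩
  let t' : Algebra.adjoin F (Set.range v) := ⟨t, Algebra.subset_adjoin ⟨⟨t, htm⟩, rfl⟩⟩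
  have h4 : hv.1.aevalEquiv.symm t' = MvPolynomial.X ⟨t, htm⟩ := by
    rw [AlgEquiv.symm_apply_eq]
    apply Subtype.ext
    have h5 := hv.1.algebraMap_aevalEquiv (MvPolynomial.X ⟨t, htm⟩)
    rw [MvPolynomial.aeval_X] at h5
    exact h5.symm
  have h5 := hσ t'
  have h6 : j t' = MvPolynomial.aeval (R := F) v (sh c (hv.1.aevalEquiv.symm t')) := rfl
  rw [h6, h4] at h5
  have h7 : sh c (MvPolynomial.X ⟨t, htm⟩) = MvPolynomial.X ⟨t, htm⟩ + MvPolynomial.C c := by
    show MvPolynomial.aeval _ (MvPolynomial.X _) = _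
    rw [MvPolynomial.aeval_X, if_pos rfl]
  rw [h7, map_add, MvPolynomial.aeval_X, MvPolynomial.aeval_C] at h5
  exact h5

end Q27.TRC
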