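import Pool.Agent.Q27.TRC.Blk
import Pool.Agent.Q27.TRC.Trd

/-!
# Kernels with algebraic characters
-/

set_option autoImplicit false

namespace Q27.TRC

open Matrix
open Pool.Agent.Y110.FJ (ClosedE Realized)
open Q30.FJ (ClosedOver)

/-- **kernels with algebraic characters of finite orbits** -/
theorem loc_chi {C D : ∀ (G : Type) [Group G], Prop} (hC : ClosedE C) (hD : ClosedOver C D)
    (hsol : ∀ (G : Type) [Group G], Group.IsSolvable G → C G)
    (G : Type) [Group G] (N : Subgroup G) [N.Normal] (hQ : D (G ⧸ N))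
    (h : ∀ (g : G) (E : Set G), E.Finite → E ⊆ N → ∃ M : Subgroup G, E ⊆ M ∧
      (∀ x, x ∈ M ↔ g * x * g⁻¹ ∈ M) ∧
      ∃ (F K : Type) (_ : Field F) (_ : Field K) (_ : Algebra F K) (n k : ℕ)
        (ρ : M →* GL (Fin n) K),
        (∀ m : ℕ, C (GL (Fin m) F)) ∧ 0 < k ∧ (∀ m : ℕ, 1 ≤ m → m ≤ n * k → (m : K) ≠ 0) ∧
        (∀ x, IsAlgebraic F (tr ρ x)) ∧
        (∀ x y : M, (y : G) = g ^ k * x * (g ^ k)⁻¹ → tr ρ y = tr ρ x) ∧
        ∀ x : M, (x : G) ∈ Subgroup.closure E → ρ x = 1 → x = 1) : D G := by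
  refine Q30.FJ.crit_over hC hD G N hQ ?_
  intro g E hE hEN
  left
  have hE' : E ∪ (fun x => g * x * g⁻¹) '' E ⊆ N := by
    rintro x (hx | ⟨x, hx, rfl⟩)
    · exact hEN hx
    · exact Subgroup.Normal.conj_mem inferInstance x (hEN hx) g
  obtain ⟨M, hEM, hMg, F, K, _, _, _, n, k, ρ, hF, hk0, hn, halg, hinv, hinj⟩ :=
    h g _ (hE.union (hE.image _)) hE'
  let V : Subgroup G := M ⊔ Subgroup.zpowers g
  have hMV : M ≤ V := le_sup_left
  have hgV : g ∈ V := Subgroup.mem_sup_right (Subgroup.mem_zpowers g)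
  have hnorm : (M.subgroupOf V).Normal := by
    rw [Subgroup.normal_subgroupOf_iff_le_normalizer hMV]
    refine sup_le Subgroup.le_normalizer ?_
    rw [Subgroup.zpowers_le]
    exact Subgroup.mem_normalizer_iff.2 hMg
  let g' : V := ⟨g, hgV⟩
  let ρ' : M.subgroupOf V →* GL (Fin n) K :=
    ρ.comp (Subgroup.subgroupOfEquivOfLe hMV).toMonoidHom
  have hgen : M.subgroupOf V ⊔ Subgroup.zpowers g' = ⊤ := by
    apply Subgroup.map_injective V.subtype_injective
    rw [Subgroup.map_sup, Subgroup.map_subgroupOf_eq_of_le hMV, MonoidHom.map_zpowers,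
      ← MonoidHom.range_eq_map, Subgroup.range_subtype]
    rfl
  obtain ⟨P, _, π, hP, hπ⟩ := cyc_main hC hsol hF (M.subgroupOf V) g' hgen k hk0 hn ρ'
    (fun x => halg _) (fun x => hinv _ _ (by
      rfl))
  have hle : Subgroup.closure (E ∪ (fun x => g * x * g⁻¹) '' E) ≤ V :=
    ((Subgroup.closure_le _).2 hEM).trans hMV
  refine ⟨P, inferInstance, π.comp (Subgroup.inclusion hle), π g', hP, ?_, ?_⟩
  · rw [injective_iff_map_eq_one]
    intro x hx
    have hxM : (x : G) ∈ M := (Subgroup.closure_le _).2 hEM x.2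
    have h1 := hπ ⟨Subgroup.inclusion hle x, hxM⟩ hx
    have h2 := hinj ⟨x, hxM⟩ x.2 h1
    have h3 : (x : G) = 1 := congrArg (fun z : M => (z : G)) h2
    exact Subtype.ext h3
  · intro x y _ hy
    rw [MonoidHom.comp_apply, MonoidHom.comp_apply, ← map_inv, ← map_mul, ← map_mul]
    congr 1
    exact Subtype.ext hy

theorem triv_quot {C : ∀ (G : Type) [Group G], Prop} (hC : ClosedE C) (G : Type) [Group G] :
    C (G ⧸ (⊤ : Subgroup G)) := by
  have h1 : Subsingleton (G ⧸ (⊤ : Subgroup G)) := QuotientGroup.subsingleton_quotient_top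
  exact Pool.Agent.Y430.SS.of_finite hC.base _ inferInstance

/-- the characters of degree `n` over `K` -/
def chars (M : Type) [Group M] (n : ℕ) (K : Type) [Field K] : Set (M → K) :=
  Set.range fun ρ : M →* GL (Fin n) K => tr ρ

theorem alg_of_finite {M : Type} [Group M] {n : ℕ} {K : Type} [Field K] [IsAlgClosed K]
    [CharZero K] (hfin : (chars M n K).Finite) (ρ : M →* GL (Fin n) K) (x : M) :
    IsAlgebraic ℚ (tr ρ x) := by
  by_contra ht
  have ht' : Transcendental ℚ (tr ρ x) := ht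
  have h1 : ∀ j : ℕ, ∃ χ ∈ chars M n K, χ x = tr ρ x + (j : K) := by
    intro j
    obtain ⟨σ, hσ⟩ := move ht' (j : ℚ)
    refine ⟨_, ⟨(Matrix.GeneralLinearGroup.map σ).comp ρ, rfl⟩, ?_⟩
    have h2 : tr ((Matrix.GeneralLinearGroup.map σ).comp ρ) x = σ (tr ρ x) := by
      unfold tr
      have h3 := (AddMonoidHom.map_trace σ.toAddMonoidHom (ρ x : Matrix (Fin n) (Fin n) K)).symm
      exact h3
    show tr ((Matrix.GeneralLinearGroup.map σ).comp ρ) x = _
    rw [h2, hσ, map_natCast]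
  choose f hf hf2 using h1
  have h3 : Function.Injective f := by
    intro i j hij
    have h4 := hf2 i
    rw [hij, hf2 j] at h4
    exact_mod_cast (add_left_cancel h4).symm
  exact Set.infinite_range_of_injective h3 (hfin.subset (by
    rintro _ ⟨j, rfl⟩
    exact hf j))

theorem orbit_of_finite {G : Type} [Group G] (N : Subgroup G) [N.Normal] {n : ℕ} {K : Type}
    [Field K] (hfin : (chars N n K).Finite) (ρ : N →* GL (Fin n) K) (g : G) :
    ∃ k : ℕ, 0 < k ∧ ∀ x : N, tr ρ (MulAut.conjNormal (g ^ k) x) = tr ρ x := by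
  let τ : ℕ → chars N n K := fun i =>
    ⟨tr (ρ.comp (MulAut.conjNormal (g ^ i)).toMonoidHom), ⟨_, rfl⟩⟩
  have hf : Finite (chars N n K) := hfin
  obtain ⟨i, j, hij, he⟩ := Finite.exists_ne_map_eq_of_infinite τ
  have key : ∀ i j : ℕ, i < j → τ i = τ j →
      ∃ k : ℕ, 0 < k ∧ ∀ x : N, tr ρ (MulAut.conjNormal (g ^ k) x) = tr ρ x := by
    intro i j hij he
    refine ⟨j - i, Nat.sub_pos_of_lt hij, ?_⟩
    intro x
    have h1 := congrFun (congrArg Subtype.val he) (MulAut.conjNormal (g ^ i)⁻¹ x)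
    have h2 : tr ρ (MulAut.conjNormal (g ^ i) (MulAut.conjNormal (g ^ i)⁻¹ x)) =
        tr ρ (MulAut.conjNormal (g ^ j) (MulAut.conjNormal (g ^ i)⁻¹ x)) := h1
    rw [← MulAut.mul_apply, ← map_mul, mul_inv_cancel, map_one, ← MulAut.mul_apply, ← map_mul,
      ← pow_sub g hij.le] at h2
    exact h2.symm
  rcases lt_or_gt_of_ne hij with h | h
  · exact key i j h he
  · exact key j i h he.symm

/-- **kernels with finitely many characters** -/
theorem fin_chars {C D : ∀ (G : Type) [Group G], Prop} (hC : ClosedE C) (hD : ClosedOver C D)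
    (hsol : ∀ (G : Type) [Group G], Group.IsSolvable G → C G)
    (hQQ : ∀ m : ℕ, C (GL (Fin m) ℚ))
    (G : Type) [Group G] (N : Subgroup G) [N.Normal] (hQ : D (G ⧸ N))
    (h : ∀ E : Set N, E.Finite → ∃ (n : ℕ) (K : Type) (_ : Field K) (_ : IsAlgClosed K)
      (_ : CharZero K) (ρ : N →* GL (Fin n) K), (chars N n K).Finite ∧
      ∀ x ∈ Subgroup.closure E, ρ x = 1 → x = 1) : D G := by
  refine loc_chi hC hD hsol G N hQ ?_
  intro g E hE hEN
  obtain ⟨n, K, _, _, _, ρ, hfin, hρ⟩ := h (Subtype.val ⁻¹' E)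
    (hE.preimage Subtype.val_injective.injOn)
  obtain ⟨k, hk0, hk⟩ := orbit_of_finite N hfin ρ g
  refine ⟨N, hEN, fun x => ⟨fun hx => Subgroup.Normal.conj_mem inferInstance x hx g, fun hx => ?_⟩,
    ℚ, K, inferInstance, inferInstance, inferInstance, n, k, ρ, hQQ, hk0, ?_, ?_, ?_, ?_⟩
  · have h3 := Subgroup.Normal.conj_mem (inferInstance : N.Normal) _ hx g⁻¹
    simpa [mul_assoc] using h3
  · intro m hm _
    exact Nat.cast_ne_zero.2 (by omega)
  · exact alg_of_finite hfin ρ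
  · intro x y hxy
    rw [← hk x]
    congr 1
    exact Subtype.ext hxy
  · intro x hxE hx
    refine hρ x ?_ hx
    have h4 : (Subgroup.closure ((Subtype.val : N → G) ⁻¹' E)).map N.subtype =
        Subgroup.closure E := by
      rw [MonoidHom.map_closure]
      congr 1
      ext y
      constructor
      · rintro ⟨z, hz, rfl⟩
        exact hz
      · intro hy
        exact ⟨⟨y, hEN hy⟩, hy, rfl⟩
    rw [← h4] at hxE
    obtain ⟨z, hz, hzx⟩ := hxE
    have h5 : z = x := Subtype.ext hzx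
    rwa [← h5]

/-- **linear groups with algebraic traces** -/
theorem alg_traces {C : ∀ (G : Type) [Group G], Prop} (hC : ClosedE C)
    (hsol : ∀ (G : Type) [Group G], Group.IsSolvable G → C G) {F K : Type} [Field F] [Field K]
    [Algebra F K] (hF : ∀ m : ℕ, C (GL (Fin m) F))
    (G : Type) [Group G] (n : ℕ) (hn : ∀ m : ℕ, 1 ≤ m → m ≤ n → (m : K) ≠ 0)
    (ρ : G →* GL (Fin n) K) (hρ : Function.Injective ρ) (halg : ∀ x, IsAlgebraic F (tr ρ x)) :
    C G := by
  have h1 : C (G ⧸ (⊤ : Subgroup G)) := triv_quot hC G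
  refine loc_chi hC (Q27.TE.closedOver_self hC) hsol G ⊤ h1 ?_
  intro g E _ _
  refine ⟨⊤, fun x _ => trivial, fun x => ⟨fun _ => trivial, fun _ => trivial⟩, F, K,
    inferInstance, inferInstance, inferInstance, n, 1, ρ.comp Subgroup.topEquiv.toMonoidHom,
    hF, one_pos, ?_, fun x => halg _, ?_, ?_⟩
  · intro m hm hm2
    exact hn m hm (by rwa [mul_one] at hm2)
  · intro x y hxy
    show tr ρ (y : G) = tr ρ (x : G)
    rw [hxy, tr_conj]
  · intro x _ hx
    exact Subtype.ext ((injective_iff_map_eq_one ρ).1 hρ _ hx)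

end Q27.TRC
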