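import Pool.Agent.Q27.TRC.Alg
import Pool.Agent.Q27.FJT.AscTypes

/-!
# Traces: characters with finite orbits
-/

set_option autoImplicit false

namespace Q27.TRC

open Matrix
open Pool.Agent.Y110.FJ (ClosedE Realized)
open Q30.FJ (ClosedOver)

variable {K : Type} [Field K] {n : ℕ}

/-- the trace of a value of a representation -/
def tr {M : Type} [Group M] (ρ : M →* GL (Fin n) K) (x : M) : K :=
  (ρ x : Matrix (Fin n) (Fin n) K).trace

theorem tr_conj {M : Type} [Group M] (ρ : M →* GL (Fin n) K) (m x : M) :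
    tr ρ (m * x * m⁻¹) = tr ρ x := by
  unfold tr
  rw [map_mul, map_mul, Units.val_mul, Units.val_mul, Matrix.trace_mul_comm, ← mul_assoc,
    ← Units.val_mul, ← map_mul, inv_mul_cancel, map_one, Units.val_one, one_mul]

variable {V : Type} [Group V]

/-- the sum of the first `k` twists of a representation -/
noncomputable def blk (M : Subgroup V) [M.Normal] (ρ : M →* GL (Fin n) K) (g : V) (k : ℕ) :
    M →* GL (Fin (n * k)) K :=
  MonoidHom.toHomUnits
  { toFun := fun x => Matrix.reindexAlgEquiv K K finProdFinEquiv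
      (Matrix.blockDiagonal (fun i : Fin k =>
        (ρ (MulAut.conjNormal (g ^ (i : ℕ)) x) : Matrix (Fin n) (Fin n) K)))
    map_one' := by
      have h : (fun i : Fin k => (ρ (MulAut.conjNormal (g ^ (i : ℕ)) (1 : M)) :
          Matrix (Fin n) (Fin n) K)) = 1 := by
        funext i
        rw [map_one, map_one, Units.val_one]
        rfl
      rw [h, Matrix.blockDiagonal_one, map_one]
    map_mul' := fun x y => by
      have h : (fun i : Fin k => (ρ (MulAut.conjNormal (g ^ (i : ℕ)) (x * y)) :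
          Matrix (Fin n) (Fin n) K)) = fun i : Fin k =>
          (ρ (MulAut.conjNormal (g ^ (i : ℕ)) x) : Matrix (Fin n) (Fin n) K) *
          (ρ (MulAut.conjNormal (g ^ (i : ℕ)) y) : Matrix (Fin n) (Fin n) K) := by
        funext i
        rw [map_mul, map_mul, Units.val_mul]
      rw [h, Matrix.blockDiagonal_mul, map_mul] }

theorem blk_trace (M : Subgroup V) [M.Normal] (ρ : M →* GL (Fin n) K) (g : V) (k : ℕ) (x : M) :
    tr (blk M ρ g k) x = ∑ i : Fin k, tr ρ (MulAut.conjNormal (g ^ (i : ℕ)) x) := by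
  have h1 : ∀ A : Matrix (Fin n × Fin k) (Fin n × Fin k) K,
      (Matrix.reindexAlgEquiv K K finProdFinEquiv A).trace = A.trace := by
    intro A
    rw [Matrix.coe_reindexAlgEquiv]
    unfold Matrix.trace
    rw [← Equiv.sum_comp (finProdFinEquiv (m := n) (n := k))]
    refine Finset.sum_congr rfl ?_
    intro i _
    simp [Matrix.diag]
  unfold tr
  show (Matrix.reindexAlgEquiv K K finProdFinEquiv (Matrix.blockDiagonal (fun i : Fin k =>
        (ρ (MulAut.conjNormal (g ^ (i : ℕ)) x) : Matrix (Fin n) (Fin n) K)))).trace = _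
  rw [h1, Matrix.trace_blockDiagonal]

theorem blk_one (M : Subgroup V) [M.Normal] (ρ : M →* GL (Fin n) K) (g : V) (k : ℕ) (hk : 0 < k)
    (x : M) (h : blk M ρ g k x = 1) : ρ x = 1 := by
  have h1 : Matrix.reindexAlgEquiv K K finProdFinEquiv (Matrix.blockDiagonal (fun i : Fin k =>
        (ρ (MulAut.conjNormal (g ^ (i : ℕ)) x) : Matrix (Fin n) (Fin n) K))) = 1 :=
    congrArg Units.val h
  have h2 : Matrix.blockDiagonal (fun i : Fin k =>
        (ρ (MulAut.conjNormal (g ^ (i : ℕ)) x) : Matrix (Fin n) (Fin n) K)) = 1 := by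
    apply (Matrix.reindexAlgEquiv K K finProdFinEquiv).injective
    rw [h1, map_one]
  rw [← Matrix.blockDiagonal_one] at h2
  have h3 := congrFun (Matrix.blockDiagonal_injective h2) ⟨0, hk⟩
  apply Units.ext
  rw [Units.val_one]
  have h4 : (MulAut.conjNormal (g ^ ((⟨0, hk⟩ : Fin k) : ℕ)) x : M) = x := by
    show (MulAut.conjNormal (g ^ 0) x : M) = x
    rw [pow_zero, map_one]
    rfl
  rw [h4] at h3
  exact h3

theorem blk_inv (M : Subgroup V) [M.Normal] (ρ : M →* GL (Fin n) K) (g : V) (k : ℕ)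
    (hgen : M ⊔ Subgroup.zpowers g = ⊤)
    (hk : ∀ x : M, tr ρ (MulAut.conjNormal (g ^ k) x) = tr ρ x) (v : V) (x : M) :
    tr (blk M ρ g k) (MulAut.conjNormal v x) = tr (blk M ρ g k) x := by
  let S : Subgroup V :=
    { carrier := {v | ∀ x, tr (blk M ρ g k) (MulAut.conjNormal v x) = tr (blk M ρ g k) x}
      one_mem' := fun x => by rw [map_one]; rfl
      mul_mem' := fun {a b} ha hb x => by rw [map_mul, MulAut.mul_apply, ha, hb]
      inv_mem' := fun {a} ha x => by
        rw [← ha, ← MulAut.mul_apply, ← map_mul, mul_inv_cancel, map_one]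
        rfl }
  have hM : M ≤ S := by
    intro m hm x
    have h1 : MulAut.conjNormal m x = (⟨m, hm⟩ : M) * x * (⟨m, hm⟩ : M)⁻¹ := by
      apply Subtype.ext
      rw [MulAut.conjNormal_apply]
      rfl
    rw [h1, tr_conj]
  have hg : g ∈ S := by
    intro x
    rw [blk_trace, blk_trace]
    have h1 : ∀ i : ℕ, (MulAut.conjNormal (g ^ i) (MulAut.conjNormal g x) : M) =
        MulAut.conjNormal (g ^ (i + 1)) x := by
      intro i
      rw [← MulAut.mul_apply, ← map_mul, pow_succ]
    simp only [h1]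
    rw [Fin.sum_univ_eq_sum_range (fun i => tr ρ (MulAut.conjNormal (g ^ (i + 1)) x)) k,
      Fin.sum_univ_eq_sum_range (fun i => tr ρ (MulAut.conjNormal (g ^ i) x)) k]
    have h2 := Finset.sum_range_succ (fun i => tr ρ (MulAut.conjNormal (g ^ i) x)) k
    have h3 := Finset.sum_range_succ' (fun i => tr ρ (MulAut.conjNormal (g ^ i) x)) k
    rw [h2, hk, pow_zero, map_one] at h3
    exact (add_right_cancel h3).symm
  have h1 : (⊤ : Subgroup V) ≤ S := by
    rw [← hgen, sup_le_iff, Subgroup.zpowers_le]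
    exact ⟨hM, hg⟩
  exact h1 (Subgroup.mem_top v) x

/-- one more element -/
theorem cyc_main {C : ∀ (G : Type) [Group G], Prop} (hC : ClosedE C)
    (hsol : ∀ (G : Type) [Group G], Group.IsSolvable G → C G) {F : Type} [Field F] [Algebra F K]
    (hF : ∀ m : ℕ, C (GL (Fin m) F)) (M : Subgroup V) [M.Normal] (g : V)
    (hgen : M ⊔ Subgroup.zpowers g = ⊤) (k : ℕ) (hk0 : 0 < k)
    (hn : ∀ m : ℕ, 1 ≤ m → m ≤ n * k → (m : K) ≠ 0) (ρ : M →* GL (Fin n) K)
    (halg : ∀ x, IsAlgebraic F (tr ρ x))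
    (hk : ∀ x : M, tr ρ (MulAut.conjNormal (g ^ k) x) = tr ρ x) :
    ∃ (P : Type) (_ : Group P) (π : V →* P), C P ∧ ∀ x : M, π x = 1 → ρ x = 1 := by
  have h1 : ∀ x, tr (blk M ρ g k) x ∈ algebraicClosure F K := by
    intro x
    rw [blk_trace]
    exact sum_mem fun i _ => mem_algebraicClosure_iff.2 (halg _)
  obtain ⟨P, _, π, hP, hπ⟩ := chi_main (F := algebraicClosure F K) hC hsol
    (fun m => gl_alg hC hF m) M (Q27.TE.cyc_quot hC.base M g hgen) hn (blk M ρ g k)
    (fun x => ⟨tr (blk M ρ g k) x, h1 x⟩) (fun x => rfl)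
    (fun v x => Subtype.ext (blk_inv M ρ g k hgen hk v x))
  exact ⟨P, inferInstance, π, hP, fun x hx => blk_one M ρ g k hk0 x (hπ x hx)⟩

end Q27.TRC
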